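import Pool.Agent.Helper44.HD.GoalsC

/-!
# Project HD (MP_e5f486_ag), packet GB: smooth algebras have finite global dimension
-/

set_option autoImplicit false

open Finset
open scoped TensorProduct
open Pool.Agent.Helper44.HD

namespace Pool.Agent.Helper39.HD

attribute [local instance] RingHomInvPair.of_ringEquiv

/-- transport of the projective dimension along a semilinear isomorphism -/
theorem pd_semi {B C M N : Type} [Ring B] [Ring C] [AddCommGroup M] [Module B M] [AddCommGroup N]
    [Module C N] (σ : B ≃+* C) (e : M ≃+ N) (he : ∀ (b : B) (x : M), e (b • x) = σ b • e x) (n : ℕ)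
    (h : CategoryTheory.HasProjectiveDimensionLT (ModuleCat.of B M) (n + 1)) :
    CategoryTheory.HasProjectiveDimensionLT (ModuleCat.of C N) (n + 1) := by
  let e' : (ModuleCat.of B M) ≃ₛₗ[RingHomClass.toRingHom σ] (ModuleCat.of C N) :=
    { toFun := e
      invFun := e.symm
      left_inv := e.left_inv
      right_inv := e.right_inv
      map_add' := e.map_add
      map_smul' := he }
  exact ModuleCat.hasProjectiveDimensionLE_of_semiLinearEquiv σ e' n

/-- transport of a bound for all modules along a ring isomorphism -/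
theorem pd_ring {B C : Type} [Ring B] [Ring C] (σ : B ≃+* C) (n : ℕ)
    (h : ∀ (M : Type) [AddCommGroup M] [Module B M],
      CategoryTheory.HasProjectiveDimensionLT (ModuleCat.of B M) (n + 1))
    (N : Type) [AddCommGroup N] [Module C N] :
    CategoryTheory.HasProjectiveDimensionLT (ModuleCat.of C N) (n + 1) := by
  let _ : Module B N := Module.compHom N (σ : B →+* C)
  exact pd_semi σ (AddEquiv.refl N) (fun b x => rfl) n (h N)

section iso

variable (k R : Type) [Field k] [Ring R] [Algebra k R]

/-- `r ⊗ op s ↦ op s ⊗ op (op r)` -/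
noncomputable def sg : Gam k R ≃ₐ[k] Gam k Rᵐᵒᵖ :=
  (Algebra.TensorProduct.comm k R Rᵐᵒᵖ).trans
    (Algebra.TensorProduct.congr AlgEquiv.refl (AlgEquiv.opOp k R))

theorem sg_tmul (r s : R) : sg k R (r ⊗ₜ MulOpposite.op s) =
    MulOpposite.op s ⊗ₜ MulOpposite.op (MulOpposite.op r) := rfl

/-- `x ↦ op x` -/
def eB : RBi R ≃+ RBi Rᵐᵒᵖ where
  toFun := fun x : R => toB (MulOpposite.op x)
  invFun := fun x : Rᵐᵒᵖ => toB x.unop
  left_inv := fun _ => rfl
  right_inv := fun _ => rfl
  map_add' := fun _ _ => rfl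

theorem eB_toB (x : R) : eB R (toB x) = toB (MulOpposite.op x) := rfl

theorem eB_smul (c : Gam k R) (x : RBi R) : eB R (c • x) = sg k R c • eB R x := by
  induction c using TensorProduct.induction_on with
  | zero =>
    have h1 : (0 : Gam k R) • x = 0 := gzero_smul x
    have h2 : sg k R (0 : Gam k R) • eB R x = 0 := by
      rw [map_zero]
      exact gzero_smul _
    exact ((congrArg (eB R) h1).trans (map_zero _)).trans h2.symm
  | tmul r s =>
    obtain ⟨s, rfl⟩ := MulOpposite.op_surjective s
    obtain ⟨x, rfl⟩ : ∃ y : R, toB y = x := ⟨x, rfl⟩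
    rw [rbi_smul, sg_tmul, eB_toB, eB_toB, rbi_smul]
    congr 1
    rw [← MulOpposite.op_mul, ← MulOpposite.op_mul, mul_assoc]
  | add a b ha hb => rw [add_smul, map_add, map_add, ha, hb, add_smul]

end iso

/-- packet GB -/
theorem gb (hGA : StmtGA) : StmtGB := by
  intro k R _ _ _ n h M _ _ _
  have h1 : CategoryTheory.HasProjectiveDimensionLT
      (ModuleCat.of (Gam k Rᵐᵒᵖ) (RBi Rᵐᵒᵖ)) (n + 1) :=
    pd_semi (sg k R).toRingEquiv (eB R) (eB_smul k R) n h
  have h2 : ∀ (N : Type) [AddCommGroup N] [Module k N],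
      CategoryTheory.HasProjectiveDimensionLT (ModuleCat.of k N) (0 + 1) := by
    intro N _ _
    rw [zero_add, ← CategoryTheory.projective_iff_hasProjectiveDimensionLT_one,
      ← IsProjective.iff_projective]
    infer_instance
  have h3 := hGA k Rᵐᵒᵖ k n 0 h1 h2
  have h4 := pd_ring (Algebra.TensorProduct.rid k k Rᵐᵒᵖ).toRingEquiv n h3
  exact ⟨n + n + 1, hGA k R Rᵐᵒᵖ n n h h4 M⟩

end Pool.Agent.Helper39.HD
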