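import Pool.Agent.Helper80.HD.GoalsC

/-! Packet HD KP (helper39): the relation for heights and degrees. -/

set_option autoImplicit false

open MvPolynomial Filter Topology

noncomputable section

namespace Pool.Agent.Helper39.HD

open Pool.Agent.Helper80.HD

/-! ### summation over all places -/

theorem sum_swap {V : Type*} (M : Multiset V) {n : ℕ} (a : Fin n → ℝ) (g : Fin n → V → ℝ) :
    ∑ i, a i * (M.map (g i)).sum = (M.map (fun v => ∑ i, a i * g i v)).sum := by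
  induction M using Multiset.induction_on with
  | empty => simp
  | cons v M ih =>
    simp only [Multiset.map_cons, Multiset.sum_cons, mul_add, Finset.sum_add_distrib, ih]

theorem glob {V J : Type*} (M : Multiset V) {n : ℕ} (a : Fin n → ℝ) (f : V → ℝ) (g : Fin n → V → ℝ)
    (f' : J → ℝ) (g' : Fin n → J → ℝ) (hM : (M.map f).sum + ∑ᶠ j, f' j = 0)
    (hf' : (Function.support f').Finite) (hg' : ∀ i, (Function.support (g' i)).Finite) (B : ℝ)
    (hB : ∀ v ∈ M, |f v - ∑ i, a i * g i v| ≤ B) (G : J → ℝ) (hG : (Function.support G).Finite)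
    (d : ℝ) (hb : ∀ j, |f' j - ∑ i, a i * g' i j| ≤ d * G j) :
    |∑ i, a i * ((M.map (g i)).sum + ∑ᶠ j, g' i j)| ≤ Multiset.card M * B + d * ∑ᶠ j, G j := by
  classical
  have hfin : (Function.support f' ∪ ((⋃ i, Function.support (g' i)) ∪ Function.support G)).Finite :=
    hf'.union ((Set.finite_iUnion hg').union hG)
  set s : Finset J := hfin.toFinset with hs
  have hsub : ∀ h : J → ℝ, Function.support h ⊆
      (Function.support f' ∪ ((⋃ i, Function.support (g' i)) ∪ Function.support G)) →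
      ∑ᶠ j, h j = ∑ j ∈ s, h j := by
    intro h hh
    apply finsum_eq_sum_of_support_subset
    rw [hs, Set.Finite.coe_toFinset]
    exact hh
  have e1 : ∑ᶠ j, f' j = ∑ j ∈ s, f' j := hsub f' Set.subset_union_left
  have e2 : ∑ᶠ j, G j = ∑ j ∈ s, G j :=
    hsub G (Set.subset_union_right.trans Set.subset_union_right)
  have e3 : ∀ i, ∑ᶠ j, g' i j = ∑ j ∈ s, g' i j := fun i =>
    hsub (g' i) (((Set.subset_iUnion (fun i => Function.support (g' i)) i).trans
      Set.subset_union_left).trans Set.subset_union_right)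
  rw [e1] at hM
  rw [e2]
  simp only [e3]
  have k1 : ∑ i, a i * ((M.map (g i)).sum + ∑ j ∈ s, g' i j) =
      (M.map (fun v => ∑ i, a i * g i v)).sum + ∑ j ∈ s, ∑ i, a i * g' i j := by
    simp only [mul_add, Finset.sum_add_distrib]
    congr 1
    · exact sum_swap M a g
    · rw [Finset.sum_comm]
      refine Finset.sum_congr rfl fun i _ => ?_
      rw [Finset.mul_sum]
  have k2 : ∑ i, a i * ((M.map (g i)).sum + ∑ j ∈ s, g' i j) =
      -((M.map (fun v => f v - ∑ i, a i * g i v)).sum + ∑ j ∈ s, (f' j - ∑ i, a i * g' i j)) := by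
    rw [k1, Multiset.sum_map_sub, Finset.sum_sub_distrib]
    linarith
  rw [k2, abs_neg]
  refine (abs_add_le _ _).trans (add_le_add ?_ ?_)
  · refine (Multiset.abs_sum_le_sum_abs).trans ?_
    rw [Multiset.map_map]
    have := Multiset.sum_le_card_nsmul (M.map (abs ∘ fun v => f v - ∑ i, a i * g i v)) B (by
      intro x hx
      rw [Multiset.mem_map] at hx
      obtain ⟨v, hv, rfl⟩ := hx
      exact hB v hv)
    rw [Multiset.card_map, nsmul_eq_mul] at this
    exact this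
  · refine (Finset.abs_sum_le_sum_abs _ _).trans ?_
    rw [Finset.mul_sum]
    exact Finset.sum_le_sum fun j _ => hb j

/-! ### scaling of segments -/

section seg

variable {K : Type} [Field K] [Algebra K ℂ] {N : ℕ} (f : RMap K N)

theorem exists_image {x : Fin (N + 1) → ℂ} (hx : f.Mem x) : ∃ y, f.IsImage x y := by
  obtain ⟨l, j0, hj⟩ := f.cover x hx.1 hx.2
  refine ⟨fun j => aeval x (f.G l j), fun h => hj (congrFun h j0), fun l' => ?_⟩
  refine ⟨aeval x (f.G l' j0) / aeval x (f.G l j0), fun j => ?_⟩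
  have h := f.agree x hx.1 hx.2 l l' j0 j
  rw [div_mul_eq_mul_div, eq_div_iff hj]
  linear_combination h

theorem seg_mem (hORB : S_ORB) {m : ℕ} {y : Fin (m + 1) → Fin (N + 1) → ℂ} (hy : f.IsSegment y)
    (i : Fin (m + 1)) : f.Mem (y i) := by
  induction i using Fin.induction with
  | zero => exact hy.1
  | succ i ih => exact ((hORB K N f).1 _ _ ih (hy.2 i)).1

theorem seg_scale (hORB : S_ORB) {m : ℕ} {y : Fin (m + 1) → Fin (N + 1) → ℂ} (hy : f.IsSegment y)
    (r : Fin (m + 1) → ℂ) (hr : ∀ i, r i ≠ 0) : f.IsSegment (fun i j => r i * y i j) := by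
  refine ⟨?_, fun i => ?_⟩
  · obtain ⟨w, hw⟩ := exists_image f (seg_mem f hORB hy 0)
    exact ((hORB K N f).2.1 _ _ (r 0) 1 (hr 0) one_ne_zero (seg_mem f hORB hy 0) hw).1
  · exact ((hORB K N f).2.1 _ _ (r i.castSucc) (r i.succ) (hr _) (hr _) (seg_mem f hORB hy _)
      (hy.2 i)).2

end seg

/-! ### the local identity -/

theorem star (hGNM : S_GNM) {L : Type} [Field L] {σ : Type} (ω : AbsoluteValue L ℝ) {n : ℕ}
    (a : Fin n → ℤ) (A : Fin n → L) (hA : ∀ i, A i ≠ 0) (Nf S : Fin n → MvPolynomial σ L)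
    (hS : ∀ i, S i = C (A i) * Nf i) (hN : ∀ i, Nf i ≠ 0) (g : L) (hg : g ≠ 0) :
    Real.log (ω (g * ∏ i, A i ^ a i)) - ∑ i, (a i : ℝ) * Real.log (gn ω (S i)) =
      Real.log (ω g) - ∑ i, (a i : ℝ) * Real.log (gn ω (Nf i)) := by
  have h1 : ∀ i, Real.log (gn ω (S i)) = Real.log (ω (A i)) + Real.log (gn ω (Nf i)) := by
    intro i
    rw [hS i, (hGNM.2.1 L σ ω).2.2.1, Real.log_mul]
    · exact (ω.pos (hA i)).ne'
    · exact ((hGNM.2.1 L σ ω).1 _ (hN i)).ne'
  have h2 : Real.log (ω (g * ∏ i, A i ^ a i)) = Real.log (ω g) + ∑ i, (a i : ℝ) * Real.log (ω (A i)) := by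
    rw [map_mul, Real.log_mul (ω.pos hg).ne' (ω.pos (Finset.prod_ne_zero_iff.2 fun i _ =>
      zpow_ne_zero _ (hA i))).ne', map_prod, Real.log_prod]
    · congr 1
      refine Finset.sum_congr rfl fun i _ => ?_
      rw [map_zpow₀, Real.log_zpow]
    · intro i _
      exact (ω.pos (zpow_ne_zero _ (hA i))).ne'
  rw [h2]
  simp only [h1, mul_add, Finset.sum_add_distrib]
  ring

/-! ### the data of one configuration -/

theorem loc (hTOWER : S_TOWER) (hCGA : S_CGA) (hCPI : S_CPI) (hCDE : S_CDE) (hGNM : S_GNM)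
    (hSUP : S_SUP) (hRES : S_RES) (hORB : S_ORB)
    {K : Type} [Field K] [NumberField K] [Algebra K ℂ] {N : ℕ} (f : RMap K N) {m : ℕ}
    (a : Fin (m + 1) → ℤ) (Γ : AbsoluteValue K ℝ → ℝ) (Γ' : ℝ) (hΓ : GoodGam K Γ)
    (hloc : ∀ (L F' : Type) [Field L] [Field F'] [Algebra K L] [Algebra L F'] [Algebra K F']
      [IsScalarTower K L F'] [FiniteDimensional L F'] (emb : F' →ₐ[K] ℂ)
      (y : Fin (m + 1) → Fin (N + 1) → F'),
      f.IsSegment (fun i j => emb (y i j)) → ∃ g : F', g ≠ 0 ∧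
        (∀ ω : AbsoluteValue L ℝ, IsNonarchimedean ω →
          |Real.log (ω (Algebra.norm L g)) - ∑ i, (a i : ℝ) * Real.log (gn ω (normForm L F' (y i)))| ≤
            (Module.finrank L F' : ℝ) * Real.log (Γ (ω.comp (algebraMap K L).injective))) ∧
        (∀ ι : L →+* ℂ,
          |Real.log (absC (ι (Algebra.norm L g))) -
            ∑ i, (a i : ℝ) * Real.log (gn absC (map ι (normForm L F' (y i))))| ≤
            (Module.finrank L F' : ℝ) * Γ'))
    (k : ℕ) (c₀ : ℝ)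
    (hARC : ∀ (u : Fin k × Fin (N + 1) → ℂ), AlgebraicIndependent K u → ∀ (σ : K →+* ℂ)
      (P : Fin (m + 1) → MvPolynomial (Fin (k + 1) × Fin (N + 1)) K) (D : ℕ), (∀ s, P s ≠ 0) →
      (∀ s, (P s).totalDegree ≤ D) → ∃ ι : LK K u →+* ℂ,
        (∀ x : K, ι (algebraMap K (LK K u) x) = σ x) ∧
        ∀ s, |Real.log (gn absC (map ι (sub K (uL K u) (P s)))) - Real.log (gn absC (map σ (P s)))| ≤
          c₀ * (1 + (D : ℝ)))
    (F : IntermediateField K ℂ) (z : Fin k → Fin (N + 1) → ℂ) (y : Fin (m + 1) → Fin (N + 1) → ℂ)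
    (hFG : F.FG) (htr : Algebra.trdeg K F = k) (hz : ∀ i, Big K F (z i)) (hy : ∀ i, Big K F (y i))
    (hseg : f.IsSegment y) (Q : Fin (m + 1) → MvPolynomial (Fin (k + 1) × Fin (N + 1)) K)
    (hQ : ∀ i, Q i = cyc K F (Fin.cons (y i) z : Fin (k + 1) → Fin (N + 1) → ℂ)) :
    ∃ (c : K) (δ : ℕ), c ≠ 0 ∧ 1 ≤ δ ∧ (∀ i, Q i ≠ 0) ∧ (∀ i, bdeg 0 (Q i) = δ) ∧
      (∀ v : AbsoluteValue K ℝ, IsNonarchimedean v →
        |Real.log (v c) - ∑ i, (a i : ℝ) * Real.log (gn v (Q i))| ≤ δ * Real.log (Γ v)) ∧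
      (∀ (σ : K →+* ℂ) (D : ℕ), (∀ s, (Q s).totalDegree ≤ D) →
        |Real.log ‖σ c‖ - ∑ i, (a i : ℝ) * Real.log (gn absC (map σ (Q i)))| ≤
          δ * Γ' + (∑ i, |(a i : ℝ)|) * (c₀ * (1 + (D : ℝ)))) ∧
      ∀ l : Fin k, ∑ i, (a i : ℝ) * (bdeg l.succ (Q i) : ℝ) = 0 := by
  have hbig : ∀ i l, Big K F ((Fin.cons (y i) z : Fin (k + 1) → Fin (N + 1) → ℂ) l) := by
    intro i l
    refine Fin.cases ?_ ?_ l
    · exact hy i
    · exact hz
  have hres := fun i => hRES K F k N (Fin.cons (y i) z) hFG htr (hbig i)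
  have hQ0 : ∀ i, Q i ≠ 0 := by
    intro i
    rw [hQ]
    exact pow_ne_zero _ (hres i).2.1.ne_zero
  obtain ⟨u, hu, hfin, hT⟩ := hTOWER K F k N z hFG htr hz
  have hq' : ∀ i, ∃ j, y i j ≠ 0 := by
    intro i
    have := (hy i).1
    rw [Function.ne_iff] at this
    exact this
  choose q hq using hq'
  choose A hA0 hA using fun i => (hT (y i) (q i) (hy i) (hq i)).1
  have hδ : ∀ i, bdeg 0 (Q i) = Module.finrank (LK K u) (FF K (LK K u) F) := by
    intro i
    rw [hQ]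
    exact (hT (y i) (q i) (hy i) (hq i)).2
  have hmem : ∀ i j, nrm (y i) (q i) j ∈ FF K (LK K u) F := by
    intro i j
    apply IntermediateField.subset_adjoin
    apply (hy i).2.1
    exact IntermediateField.subset_adjoin K _ ⟨j, q i, rfl⟩
  let emb : FF K (LK K u) F →ₐ[K] ℂ := (IntermediateField.val (FF K (LK K u) F)).restrictScalars K
  have hembY : ∀ i j, emb (toE (FF K (LK K u) F) (nrm (y i) (q i)) j) = (y i (q i))⁻¹ * y i j := by
    intro i j
    have h1 : toE (FF K (LK K u) F) (nrm (y i) (q i)) j = ⟨nrm (y i) (q i) j, hmem i j⟩ := by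
      unfold toE
      rw [dif_pos (hmem i j)]
    rw [h1]
    show y i j / y i (q i) = _
    rw [div_eq_inv_mul]
  have hsegY : f.IsSegment (fun i j => emb (toE (FF K (LK K u) F) (nrm (y i) (q i)) j)) := by
    simp only [hembY]
    exact seg_scale f hORB hseg _ (fun i => inv_ne_zero (hq i))
  obtain ⟨g, hg0, hgn, hga⟩ := hloc (LK K u) (FF K (LK K u) F) emb
    (fun i => toE (FF K (LK K u) F) (nrm (y i) (q i))) hsegY
  have hS : ∀ i, sub K (uL K u) (Q i) = C (A i) *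
      normForm (LK K u) (FF K (LK K u) F) (toE (FF K (LK K u) F) (nrm (y i) (q i))) := by
    intro i
    rw [hQ]
    exact hA i
  have hsub0 : ∀ i, sub K (uL K u) (Q i) ≠ 0 := fun i => (hSUP K k N u).2.2.2.1 hu _ (hQ0 i)
  have hN0 : ∀ i, normForm (LK K u) (FF K (LK K u) F) (toE (FF K (LK K u) F) (nrm (y i) (q i))) ≠ 0 := by
    intro i h
    apply hsub0 i
    rw [hS, h, mul_zero]
  have hnorm : Algebra.norm (LK K u) g ≠ 0 := by
    rw [Ne, Algebra.norm_eq_zero_iff]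
    exact hg0
  have hκ0 : Algebra.norm (LK K u) g * ∏ i, A i ^ a i ≠ 0 :=
    mul_ne_zero hnorm (Finset.prod_ne_zero_iff.2 fun i _ => zpow_ne_zero _ (hA0 i))
  have star1 : ∀ ω : AbsoluteValue (LK K u) ℝ, IsNonarchimedean ω →
      |Real.log (ω (Algebra.norm (LK K u) g * ∏ i, A i ^ a i)) -
        ∑ i, (a i : ℝ) * Real.log (gn ω (sub K (uL K u) (Q i)))| ≤
      (Module.finrank (LK K u) (FF K (LK K u) F) : ℝ) *
        Real.log (Γ (ω.comp (algebraMap K (LK K u)).injective)) := by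
    intro ω hω
    rw [star hGNM ω a A hA0 _ (fun i => sub K (uL K u) (Q i)) hS hN0 _ hnorm]
    exact hgn ω hω
  have htriv : ∀ ω : AbsoluteValue (LK K u) ℝ,
      (∀ c : K, c ≠ 0 → ω (algebraMap K (LK K u) c) = 1) →
      Real.log (Γ (ω.comp (algebraMap K (LK K u)).injective)) = 0 := by
    intro ω hω
    rw [hΓ.2.1 _ (fun c hc => hω c hc), Real.log_one]
  have hPi : ∀ ω ∈ PiAbs K u, ω (Algebra.norm (LK K u) g * ∏ i, A i ^ a i) = 1 := by
    intro ω hω
    have h1 := star1 ω hω.1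
    rw [htriv ω hω.2.1, mul_zero] at h1
    have h2 : ∀ i, gn ω (sub K (uL K u) (Q i)) = 1 := by
      intro i
      rw [hQ]
      exact hω.2.2 _ _ (hres i).2.1 ⟨q i, (hres i).2.2 0 (q i) (hq i)⟩
    simp only [h2, Real.log_one, mul_zero, Finset.sum_const_zero, sub_zero] at h1
    have h3 := abs_eq_zero.1 (le_antisymm h1 (abs_nonneg _))
    exact Real.eq_one_of_pos_of_log_eq_zero (ω.pos hκ0) h3
  obtain ⟨c, hc⟩ := (hCPI K k N u hu _ hκ0).1 hPi
  have hc0 : c ≠ 0 := by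
    rintro rfl
    rw [map_zero] at hc
    exact hκ0 hc
  rw [hc] at star1
  refine ⟨c, Module.finrank (LK K u) (FF K (LK K u) F), hc0, ?_, hQ0, hδ, ?_, ?_, ?_⟩
  · exact Nat.one_le_iff_ne_zero.2 (Module.finrank_pos).ne'
  · intro v hv
    obtain ⟨ω, hω1, hω2, hω3⟩ := hCGA K v k N u hv hu
    have h1 := star1 ω hω1
    have h2 : ω.comp (algebraMap K (LK K u)).injective = v := by
      ext x
      exact hω2 x
    rw [h2, hω2 c] at h1
    simp only [hω3] at h1
    exact h1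
  · intro σ D hD
    obtain ⟨ι, hι1, hι2⟩ := hARC u hu σ Q D hQ0 hD
    have h1 := hga ι
    have h2 := star hGNM absC a (fun i => ι (A i)) (fun i => (map_ne_zero ι).2 (hA0 i))
      (fun i => map ι (normForm (LK K u) (FF K (LK K u) F) (toE (FF K (LK K u) F) (nrm (y i) (q i)))))
      (fun i => map ι (sub K (uL K u) (Q i))) (fun i => by
        rw [hS i, map_mul, map_C]) (fun i => by
        intro h
        apply hN0 i
        apply MvPolynomial.map_injective ι ι.injective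
        rw [map_zero]
        exact h) (ι (Algebra.norm (LK K u) g)) ((map_ne_zero ι).2 hnorm)
    have h3 : ι (Algebra.norm (LK K u) g) * ∏ i, ι (A i) ^ a i = σ c := by
      rw [← hι1, ← hc, map_mul, map_prod]
      simp only [map_zpow₀]
    rw [h3] at h2
    rw [← h2] at h1
    have h4 : ∑ i, (a i : ℝ) * Real.log (gn absC (map ι (sub K (uL K u) (Q i)))) -
        ∑ i, (a i : ℝ) * Real.log (gn absC (map σ (Q i))) =
        ∑ i, (a i : ℝ) * (Real.log (gn absC (map ι (sub K (uL K u) (Q i)))) -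
          Real.log (gn absC (map σ (Q i)))) := by
      rw [← Finset.sum_sub_distrib]
      refine Finset.sum_congr rfl fun i _ => ?_
      ring
    have h5 : |∑ i, (a i : ℝ) * (Real.log (gn absC (map ι (sub K (uL K u) (Q i)))) -
          Real.log (gn absC (map σ (Q i))))| ≤ (∑ i, |(a i : ℝ)|) * (c₀ * (1 + (D : ℝ))) := by
      refine (Finset.abs_sum_le_sum_abs _ _).trans ?_
      rw [Finset.sum_mul]
      refine Finset.sum_le_sum fun i _ => ?_
      rw [abs_mul]
      exact mul_le_mul_of_nonneg_left (hι2 i) (abs_nonneg _)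
    have h6 : Real.log ‖σ c‖ - ∑ i, (a i : ℝ) * Real.log (gn absC (map σ (Q i))) =
        (Real.log (absC (σ c)) - ∑ i, (a i : ℝ) * Real.log (gn absC (map ι (sub K (uL K u) (Q i))))) +
        ∑ i, (a i : ℝ) * (Real.log (gn absC (map ι (sub K (uL K u) (Q i)))) -
          Real.log (gn absC (map σ (Q i)))) := by
      rw [← h4]
      show _ = (Real.log ‖σ c‖ - _) + _
      ring
    rw [h6]
    exact (abs_add_le _ _).trans (add_le_add h1 h5)
  · intro l
    obtain ⟨ω, hω1, hω2, hω3⟩ := hCDE K k N u hu l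
    have h1 := star1 ω hω1
    rw [htriv ω hω2, mul_zero, hω2 c hc0, Real.log_one] at h1
    have h2 : ∀ i, Real.log (gn ω (sub K (uL K u) (Q i))) = (bdeg l.succ (Q i) : ℝ) := by
      intro i
      rw [hω3 _ (hQ0 i), Real.log_exp]
    simp only [h2, zero_sub, abs_neg] at h1
    exact abs_eq_zero.1 (le_antisymm h1 (abs_nonneg _))

theorem support_log_subset {J : Type*} (h : J → ℝ) (hf : {j | h j ≠ 1}.Finite) :
    (Function.support fun j => Real.log (h j)).Finite := by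
  refine hf.subset fun j hj h1 => ?_
  apply hj
  simp only [h1, Real.log_one]

theorem kp (hTOWER : S_TOWER) (hLOCA : S_LOCA) (hCGA : S_CGA) (hCPI : S_CPI) (hCDE : S_CDE)
    (hARC : S_ARC) (hLHD : S_LHD) (hGNM : S_GNM) (hTDG : S_TDG) (hSUP : S_SUP) (hRES : S_RES)
    (hORB : S_ORB) : S_KP := by
  intro K _ _ _ N f m a T k
  obtain ⟨Γ, Γ', hΓ, hΓ', hloc⟩ := hLOCA K N f m a T
  obtain ⟨c₀, hc₀, hARC'⟩ := hARC k N (m + 1)
  obtain ⟨hL1, hL2, hL3, hL4, hL5⟩ := hLHD K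
  have hG0 : 0 ≤ ∑ᶠ v : Height.AdmissibleAbsValues.nonarchAbsVal (K := K), Real.log (Γ v.1) :=
    finsum_nonneg fun v => Real.log_nonneg (hΓ.1 _)
  have hSa0 : 0 ≤ ∑ i, |(a i : ℝ)| := Finset.sum_nonneg fun i _ => abs_nonneg _
  refine ⟨Multiset.card (Height.AdmissibleAbsValues.archAbsVal (K := K)) *
    (Γ' + (∑ i, |(a i : ℝ)|) * (c₀ * (m + 2))) +
      ∑ᶠ v : Height.AdmissibleAbsValues.nonarchAbsVal (K := K), Real.log (Γ v.1), by positivity, ?_⟩
  intro F z y hFG htr hz hy hseg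
  obtain ⟨Q, hQe⟩ : ∃ Q : Fin (m + 1) → MvPolynomial (Fin (k + 1) × Fin (N + 1)) K,
      ∀ i, Q i = cyc K F (Fin.cons (y i) z : Fin (k + 1) → Fin (N + 1) → ℂ) := ⟨_, fun i => rfl⟩
  obtain ⟨c, δ, hc0, hδ1, hQ0, hb, hnon, harch, hdeg⟩ := loc hTOWER hCGA hCPI hCDE hGNM hSUP hRES
    hORB f a Γ Γ' hΓ hloc k c₀ (fun u hu σ P D => hARC' K u hu σ P D) F z y hFG htr hz hy hseg
    Q hQe
  simp only [← hQe]
  refine ⟨?_, hdeg⟩
  have hlh : ∀ i, lh (Q i) = ((Height.AdmissibleAbsValues.archAbsVal (K := K)).map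
      fun v => Real.log (gn v (Q i))).sum +
      ∑ᶠ v : Height.AdmissibleAbsValues.nonarchAbsVal (K := K), Real.log (gn v.1 (Q i)) :=
    fun i => (hL1 _ (Q i) (hQ0 i)).1
  simp only [hlh]
  have hD : ∀ s, (Q s).totalDegree ≤ ∑ i, (Q i).totalDegree := fun s =>
    Finset.single_le_sum (f := fun i => (Q i).totalDegree) (fun i _ => Nat.zero_le _)
      (Finset.mem_univ s)
  have key := glob (Height.AdmissibleAbsValues.archAbsVal (K := K)) (fun i => (a i : ℝ))
    (fun v => Real.log (v c)) (fun i v => Real.log (gn v (Q i)))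
    (fun v : Height.AdmissibleAbsValues.nonarchAbsVal (K := K) => Real.log (v.1 c))
    (fun i v => Real.log (gn v.1 (Q i))) (hL3 c hc0).1
    (support_log_subset _ (hL3 c hc0).2)
    (fun i => support_log_subset _ (hL1 _ (Q i) (hQ0 i)).2)
    (δ * Γ' + (∑ i, |(a i : ℝ)|) * (c₀ * (1 + ((∑ i, (Q i).totalDegree : ℕ) : ℝ))))
    (by
      intro v hv
      obtain ⟨σ, hσ⟩ := hL2 v hv
      have h1 := harch σ _ hD
      have h2 : ∀ i, gn absC (map σ (Q i)) = gn v (Q i) := fun i =>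
        (hGNM.2.1 K _ v).2.2.2.2.2 ℂ σ absC (fun x => (hσ x).symm) (Q i)
      simp only [h2, ← hσ] at h1
      exact h1)
    (fun v => Real.log (Γ v.1))
    (support_log_subset _ ((hΓ.2.2.preimage Subtype.val_injective.injOn).subset
      fun v hv => ⟨v.2, hv⟩))
    δ (fun v => hnon v.1 (hL4 v.1 v.2))
  refine key.trans ?_
  -- the degrees
  have hdegb : ((∑ i, (Q i).totalDegree : ℕ) : ℝ) ≤
      (m + 1) * δ + ∑ i, ∑ l : Fin k, (bdeg l.succ (Q i) : ℝ) := by
    have h1 : (∑ i, (Q i).totalDegree) ≤ ∑ i, (δ + ∑ l : Fin k, bdeg l.succ (Q i)) := by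
      refine Finset.sum_le_sum fun i _ => ?_
      have h2 := (hTDG K (k + 1) N (Q i) (Q i) (hQ0 i) (hQ0 i)).2.2.2
      rw [Fin.sum_univ_succ, hb i] at h2
      exact h2
    have h3 : ((∑ i, (Q i).totalDegree : ℕ) : ℝ) ≤
        ((∑ i, (δ + ∑ l : Fin k, bdeg l.succ (Q i)) : ℕ) : ℝ) := by exact_mod_cast h1
    refine h3.trans (le_of_eq ?_)
    push_cast
    rw [Finset.sum_add_distrib, Finset.sum_const, Finset.card_univ, Fintype.card_fin, nsmul_eq_mul]
    push_cast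
    ring
  have hδR : (1 : ℝ) ≤ δ := by exact_mod_cast hδ1
  have hS0 : 0 ≤ ∑ i, ∑ l : Fin k, (bdeg l.succ (Q i) : ℝ) :=
    Finset.sum_nonneg fun i _ => Finset.sum_nonneg fun l _ => Nat.cast_nonneg _
  rw [hb 0]
  generalize (∑ i, ∑ l : Fin k, (bdeg l.succ (Q i) : ℝ)) = Sg at *
  generalize ((∑ i, (Q i).totalDegree : ℕ) : ℝ) = D at *
  generalize (∑ i, |(a i : ℝ)|) = Sa at *
  generalize (∑ᶠ v : Height.AdmissibleAbsValues.nonarchAbsVal (K := K), Real.log (Γ v.1)) = G at *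
  have h1 : 1 + D ≤ (m + 2) * (δ + Sg) := by
    have hm : (0 : ℝ) ≤ m := Nat.cast_nonneg _
    nlinarith [mul_nonneg hm hS0]
  have h2 : δ * Γ' + Sa * (c₀ * (1 + D)) ≤ (Γ' + Sa * (c₀ * (m + 2))) * (δ + Sg) := by
    have h3 : Sa * (c₀ * (1 + D)) ≤ Sa * (c₀ * ((m + 2) * (δ + Sg))) :=
      mul_le_mul_of_nonneg_left (mul_le_mul_of_nonneg_left h1 hc₀) hSa0
    have h4 : δ * Γ' ≤ (δ + Sg) * Γ' := mul_le_mul_of_nonneg_right (by linarith) hΓ'
    calc δ * Γ' + Sa * (c₀ * (1 + D)) ≤ (δ + Sg) * Γ' + Sa * (c₀ * ((m + 2) * (δ + Sg))) :=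
          add_le_add h4 h3
      _ = _ := by ring
  have h3 : (Multiset.card (Height.AdmissibleAbsValues.archAbsVal (K := K)) : ℝ) *
      (δ * Γ' + Sa * (c₀ * (1 + D))) ≤
      (Multiset.card (Height.AdmissibleAbsValues.archAbsVal (K := K)) : ℝ) *
      ((Γ' + Sa * (c₀ * (m + 2))) * (δ + Sg)) :=
    mul_le_mul_of_nonneg_left h2 (Nat.cast_nonneg _)
  have h4 : δ * G ≤ G * (δ + Sg) := by nlinarith [mul_nonneg hG0 hS0]
  calc _ ≤ _ := add_le_add h3 h4
    _ = _ := by ring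

end Pool.Agent.Helper39.HD
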