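import Pool.Agent.Helper44.HD.GoalsQ
import Pool.Agent.Helper44.HD.ExRl

/-!
# Project HD (MP_e5f486_ag), packet QD: the induction on the projective dimension
-/

set_option autoImplicit false
set_option linter.unusedSectionVars false

open Finset
open scoped TensorProduct
open Pool.Agent.Helper44.HD

namespace Pool.Agent.Helper39.HD

section retr

variable {k G : Type} [Field k] [Group G] {D : RedGroup k G}
  {u v w : Type} [Fintype u] [DecidableEq u] [Fintype v] [DecidableEq v] [Fintype w]
  [DecidableEq w]

theorem Retr_trans {U : MRep D u} {V : MRep D v} {W : MRep D w} (h : Retr U V) (h' : Retr V W) :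
    Retr U W := by
  obtain ⟨a, b, h1, h2, h3⟩ := h
  obtain ⟨a', b', h1', h2', h3'⟩ := h'
  refine ⟨a' * a, b * b', fun g => ?_, fun g => ?_, ?_⟩
  · rw [← Matrix.mul_assoc, h1', Matrix.mul_assoc, h1, Matrix.mul_assoc]
  · rw [← Matrix.mul_assoc, h2, Matrix.mul_assoc, h2', Matrix.mul_assoc]
  · rw [Matrix.mul_assoc, ← Matrix.mul_assoc b' a' a, h3', Matrix.one_mul, h3]

theorem sum_m (V : MRep D v) (W : MRep D w) (g : G) :
    (V.sum W).m g = Matrix.fromBlocks (V.m g) 0 0 (W.m g) := rfl

theorem Retr_inl (V : MRep D v) (W : MRep D w) : Retr V (V.sum W) := by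
  refine ⟨Matrix.fromRows 1 0, Matrix.fromCols 1 0, fun g => ?_, fun g => ?_, ?_⟩
  · rw [sum_m, Matrix.fromBlocks_mul_fromRows, Matrix.fromRows_mul]
    simp
  · rw [sum_m, Matrix.fromCols_mul_fromBlocks, Matrix.mul_fromCols]
    simp
  · rw [Matrix.fromCols_mul_fromRows]
    simp

theorem Retr_inr (V : MRep D v) (W : MRep D w) : Retr W (V.sum W) := by
  refine ⟨Matrix.fromRows 0 1, Matrix.fromCols 0 1, fun g => ?_, fun g => ?_, ?_⟩
  · rw [sum_m, Matrix.fromBlocks_mul_fromRows, Matrix.fromRows_mul]
    simp
  · rw [sum_m, Matrix.fromCols_mul_fromBlocks, Matrix.mul_fromCols]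
    simp
  · rw [Matrix.fromCols_mul_fromRows]
    simp

end retr

section core

variable {k G R v w : Type} [Field k] [CharZero k] [Group G] [Ring R] [Algebra k R]
  [MulSemiringAction G R] [SMulCommClass G k R] {D : RedGroup k G}
  [Fintype v] [DecidableEq v] [Fintype w] [DecidableEq w]

/-- `N_W` of an equivariant free module -/
theorem core (hSU : StmtSU) (hQN : StmtQN) (hQP : StmtQP) (hQH : StmtQH)
    (V : MRep D v) (hrat : RatR D R) (hprop : PropR D R) {p q : ℕ} (α : MRep D (Fin p))
    (β : MRep D (Fin q)) (Xf : EMod D R (FM (Fin p) (Fin q) k R))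
    (hXf : ∀ g h x, Xf.π (g, h) x = fabF α β g h x) (W : MRep D w) (hW : Retr α.dual W) :
    FiniteDimensional k (NN V W Xf) ∧ Module.Projective (EE R W) (NN V W Xf) ∧
    ∀ (N : Type) [AddCommGroup N] [Module k N] [Module (EE R W) N] [IsScalarTower k (EE R W) N]
      (X : RAct k (EE R W) (EE R V) N) (i : N →ₗ[EE R W] NN V W Xf)
      (p : NN V W Xf →ₗ[EE R W] N), (∀ x, p (i x) = x) →
      (∀ a x, i (X.r a x) = (NA V W Xf).r a (i x)) →
      (∀ a y, p ((NA V W Xf).r a y) = X.r a (p y)) → CZ X := by
  obtain ⟨hPf, hPp⟩ := hQP k G R (Fin p) w D α.dual W hW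
  have hU : FiniteDimensional k (Hm R V β) := hQH k G R v (Fin q) D V β hprop
  have hP : FiniteDimensional k (Hm R α.dual W) := hQH k G R (Fin p) w D α.dual W hprop
  have hA : FiniteDimensional k (EE R V) := hprop v V
  obtain ⟨e, he⟩ := hQN k G R (Fin p) (Fin q) v w D α β V W Xf hrat hXf
  refine ⟨?_, ?_, ?_⟩
  · have h1 : FiniteDimensional k (TensorProduct k (Hm R α.dual W) (Hm R V β)) := inferInstance
    exact Module.Finite.equiv (e.restrictScalars k)
  · have h1 : Module.Projective (EE R W) (TensorProduct k (Hm R α.dual W) (Hm R V β)) :=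
      inferInstance
    exact Module.Projective.of_equiv e
  · intro N _ _ _ _ X i p hpi hi hp
    refine hSU k (EE R W) (EE R V) N (Hm R α.dual W) (Hm R V β) X (HU V β)
      (e.symm.toLinearMap ∘ₗ i) (p ∘ₗ e.toLinearMap) hPf hPp ?_ ?_ ?_
    · intro x
      simp [hpi]
    · intro a x
      apply e.injective
      rw [he]
      simp [hi]
    · intro a y
      simp only [LinearMap.comp_apply, LinearEquiv.coe_coe]
      rw [he, hp]

end core

section ker

variable {k G R v w M F : Type} [Field k] [Group G] [Ring R] [Algebra k R]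
  [MulSemiringAction G R] [SMulCommClass G k R] {D : RedGroup k G}
  [Fintype v] [DecidableEq v] [Fintype w] [DecidableEq w]
  [AddCommGroup M] [Module k M] [Module (Gam k R) M] [IsScalarTower k (Gam k R) M]
  [AddCommGroup F] [Module k F] [Module (Gam k R) F] [IsScalarTower k (Gam k R) F]

/-- the kernel, as a type -/
def KT (q : F →ₗ[Gam k R] M) : Type := LinearMap.ker q

variable (q : F →ₗ[Gam k R] M)

noncomputable instance instKT1 : AddCommGroup (KT q) :=
  inferInstanceAs (AddCommGroup (LinearMap.ker q))

noncomputable instance instKT2 : Module k (KT q) := inferInstanceAs (Module k (LinearMap.ker q))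

noncomputable instance instKT3 : Module (Gam k R) (KT q) :=
  inferInstanceAs (Module (Gam k R) (LinearMap.ker q))

instance instKT4 : IsScalarTower k (Gam k R) (KT q) :=
  inferInstanceAs (IsScalarTower k (Gam k R) (LinearMap.ker q))

/-- the inclusion of the kernel -/
def ki : KT q →ₗ[Gam k R] F := (LinearMap.ker q).subtype

theorem ki_inj : Function.Injective (ki q) := fun _ _ h => Subtype.ext h

theorem ki_ker (x : KT q) : q (ki q x) = 0 := LinearMap.mem_ker.1 x.2

theorem ki_ex (x : F) (h : q x = 0) : ∃ y : KT q, ki q y = x := ⟨⟨x, LinearMap.mem_ker.2 h⟩, rfl⟩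

/-- the kernel of an equivariant map is an equivariant module -/
theorem exKer (X : EMod D R M) (Y : EMod D R F) (hq : ∀ p x, q (Y.π p x) = X.π p (q x)) :
    ∃ Z : EMod D R (KT q), ∀ p x, ki q (Z.π p x) = Y.π p (ki q x) := by
  have hm : ∀ p (x : KT q), ∃ y : KT q, ki q y = Y.π p (ki q x) := by
    intro p x
    apply ki_ex
    rw [hq, ki_ker, map_zero]
  choose t ht using hm
  let π : Representation k (G × G) (KT q) :=
    { toFun := fun p =>
        { toFun := t p
          map_add' := fun x y => ki_inj q (by rw [ht, map_add, map_add, map_add, ht, ht])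
          map_smul' := fun c x => ki_inj q (by
            rw [ht, ← gl_apply (ki q), ← gl_apply (ki q), map_smul, map_smul, map_smul, gl_apply,
              gl_apply, ht]
            rfl) }
      map_one' := by
        apply LinearMap.ext
        intro x
        apply ki_inj q
        change ki q (t 1 x) = ki q x
        rw [ht, map_one]
        rfl
      map_mul' := by
        intro p p'
        apply LinearMap.ext
        intro x
        apply ki_inj q
        change ki q (t (p * p') x) = ki q (t p (t p' x))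
        rw [ht, ht, ht, map_mul]
        rfl }
  have hπ : ∀ p x, ki q (π p x) = Y.π p (ki q x) := ht
  refine ⟨⟨π, ?_, ?_⟩, hπ⟩
  · intro p c x
    apply ki_inj q
    rw [hπ, map_smul (ki q) c x, Y.semi, map_smul (ki q), hπ]
  · intro x
    have hi : LinearMap.ker (gl (ki q)) = ⊥ := LinearMap.ker_eq_bot.2 (ki_inj q)
    obtain ⟨s, hs⟩ := LinearMap.exists_leftInverse_of_injective (gl (ki q)) hi
    have h1 := RF_map D.pr s (Y.rat (ki q x))
    have e : (fun p => π p x) = fun p => s (Y.π p (ki q x)) := by
      funext p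
      rw [← hπ]
      exact (LinearMap.congr_fun hs (π p x)).symm
    rw [e]
    exact h1

variable {q} (V : MRep D v) (W : MRep D w) {X : EMod D R M} {Y : EMod D R F}
    (hq : ∀ p x, q (Y.π p x) = X.π p (q x)) (Z : EMod D R (KT q))
    (hZ : ∀ p x, ki q (Z.π p x) = Y.π p (ki q x))

theorem NN_ex (Y' : NN V W Y) :
    NNmap V W Y X q hq Y' = 0 ↔ ∃ y : NN V W Z, NNmap V W Z Y (ki q) hZ y = Y' := by
  constructor
  · intro h
    have hk : ∀ i j, ∃ y : KT q, ki q y = Y'.1 i j := by
      intro i j
      apply ki_ex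
      rw [← NNmap_apply q hq, h]
      rfl
    choose t ht using hk
    refine ⟨⟨t, ?_⟩, ?_⟩
    · have hY := Y'.2
      rw [mem_NN] at hY ⊢
      intro g h i j
      apply ki_inj q
      have h1 := hY g h i j
      rw [← gl_apply (ki q), ← gl_apply (ki q)]
      simp only [map_sum, map_smul, gl_apply, hZ, ht]
      exact h1
    · apply Subtype.ext
      funext i j
      rw [NNmap_apply]
      exact ht i j
  · rintro ⟨y, rfl⟩
    apply Subtype.ext
    funext i j
    rw [NNmap_apply, NNmap_apply]
    exact ki_ker q _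

theorem NN_inj : Function.Injective (NNmap V W Z Y (ki q) hZ) := by
  intro a b h
  apply Subtype.ext
  funext i j
  apply ki_inj q
  have h1 := congrFun (congrFun (congrArg Subtype.val h) i) j
  exact h1

end ker

section split

/-- in a split exact sequence the kernel is a direct summand -/
theorem split_proj {E N' N N'' : Type} [Ring E] [AddCommGroup N'] [Module E N']
    [AddCommGroup N] [Module E N] [AddCommGroup N''] [Module E N'']
    (f : N' →ₗ[E] N) (g : N →ₗ[E] N'') (hf : Function.Injective f) (hg : Function.Surjective g)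
    (hfg : ∀ x, g x = 0 ↔ ∃ y, f y = x) (hN : Module.Projective E N)
    (hN'' : Module.Projective E N'') : Module.Projective E N' := by
  obtain ⟨s, hs⟩ := Module.projective_lifting_property g LinearMap.id hg
  have hs' : ∀ x, g (s x) = x := fun x => LinearMap.congr_fun hs x
  have hr : ∀ x, x - s (g x) ∈ LinearMap.range f := by
    intro x
    rw [LinearMap.mem_range, ← hfg, map_sub, hs', sub_self]
  let c : N →ₗ[E] LinearMap.range f := (LinearMap.id - s ∘ₗ g).codRestrict _ hr
  let e := LinearEquiv.ofInjective f hf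
  refine Module.Projective.of_split f (e.symm.toLinearMap ∘ₗ c) ?_
  apply LinearMap.ext
  intro y
  apply e.injective
  simp only [LinearMap.comp_apply, LinearEquiv.coe_coe, LinearEquiv.apply_symm_apply,
    LinearMap.id_apply]
  apply Subtype.ext
  change f y - s (g (f y)) = f y
  rw [(hfg (f y)).2 ⟨y, rfl⟩, map_zero, sub_zero]

end split

/-- packet QD -/
theorem qd (hSU : StmtSU) (hTT : StmtTT) (hQS : StmtQS) (hQE : StmtQE) (hQG : StmtQG)
    (hQF : StmtQF) (hQN : StmtQN) (hQP : StmtQP) (hQH : StmtQH) : StmtQD := by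
  intro k G R v _ _ _ _ _ _ _ D _ _ V hrat hprop hnoeth d
  induction d with
  | zero =>
    intro M _ _ _ _ X hfin hpd
    obtain ⟨p, q, α, β, e, hes, heq⟩ := hQG k G R M D X hfin
    obtain ⟨Xf, hXf⟩ := hQF k G R (Fin p) (Fin q) D α β hrat
    have he : ∀ p x, e (Xf.π p x) = X.π p (e x) := by
      intro p x
      rw [← heq, ← hXf]
    have hpr : Module.Projective (Gam k R) M := by
      rw [IsProjective.iff_projective,
        CategoryTheory.projective_iff_hasProjectiveDimensionLT_one]
      exact hpd
    obtain ⟨s, hs1, hs2⟩ := hQS k G R M (FM (Fin p) (Fin q) k R) D X Xf e hes he hpr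
    refine ⟨Fin p, inferInstance, inferInstance, α.dual, ?_⟩
    intro w _ _ W hW _
    refine (core hSU hQN hQP hQH V hrat hprop α β Xf hXf W hW).2.2 (NN V W X) (NA V W X)
      (NNmap V W X Xf s hs2) (NNmap V W Xf X e he) ?_ ?_ ?_
    · intro x
      apply Subtype.ext
      funext i j
      rw [NNmap_apply, NNmap_apply, hs1]
    · intro a x
      exact NNmap_r s hs2 a x
    · intro a y
      exact NNmap_r e he a y
  | succ d ih =>
    intro M _ _ _ _ X hfin hpd
    obtain ⟨p, q, α, β, e, hes, heq⟩ := hQG k G R M D X hfin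
    obtain ⟨Xf, hXf⟩ := hQF k G R (Fin p) (Fin q) D α β hrat
    have he : ∀ p x, e (Xf.π p x) = X.π p (e x) := by
      intro p x
      rw [← heq, ← hXf]
    obtain ⟨Z, hZ⟩ := exKer e X Xf he
    have hKf : Module.Finite (Gam k R) (KT e) := by
      have h1 : IsNoetherian (Gam k R) (FM (Fin p) (Fin q) k R) :=
        isNoetherian_of_isNoetherianRing_of_finite _ _
      exact inferInstanceAs (Module.Finite (Gam k R) (LinearMap.ker e))
    have hKd : CategoryTheory.HasProjectiveDimensionLT
        (ModuleCat.of (Gam k R) (KT e)) (d + 1) := by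
      have h1 : CategoryTheory.Projective (ModuleCat.of (Gam k R) (FM (Fin p) (Fin q) k R)) := by
        rw [← IsProjective.iff_projective]
        infer_instance
      exact ((LinearMap.shortExact_shortComplexKer hes).hasProjectiveDimensionLT_X₃_iff d h1).1 hpd
    obtain ⟨o, ho1, ho2, Ω, hΩ⟩ := ih (KT e) Z hKf hKd
    refine ⟨Fin p ⊕ o, inferInstance, inferInstance, α.dual.sum Ω, ?_⟩
    intro w _ _ W hW hNp
    have hW1 : Retr α.dual W := Retr_trans (Retr_inl α.dual Ω) hW
    have hW2 : Retr Ω W := Retr_trans (Retr_inr α.dual Ω) hW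
    obtain ⟨hFd, hFp, hFc⟩ := core hSU hQN hQP hQH V hrat hprop α β Xf hXf W hW1
    have hinj := NN_inj V W Z hZ
    have hsur := hQE k G R M (FM (Fin p) (Fin q) k R) v w D V W X Xf e he hes
    have hex := NN_ex V W he Z hZ
    have hNf : Module.Finite (EE R W) (NN V W Xf) :=
      Module.Finite.of_restrictScalars_finite k (EE R W) (NN V W Xf)
    have hK1 : Module.Projective (EE R W) (NN V W Z) :=
      split_proj (NNmap V W Z Xf (ki e) hZ) (NNmap V W Xf X e he) hinj hsur hex hFp hNp
    have hK2 : FiniteDimensional k (NN V W Z) :=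
      Module.Finite.of_injective ((NNmap V W Z Xf (ki e) hZ).restrictScalars k) hinj
    have hK3 : Module.Finite (EE R W) (NN V W Z) :=
      Module.Finite.of_restrictScalars_finite k (EE R W) (NN V W Z)
    have hMf : Module.Finite (EE R W) (NN V W X) := Module.Finite.of_surjective _ hsur
    refine (hTT k (EE R W) (EE R V) (NN V W Z) (NN V W Xf) (NN V W X) (NA V W Z) (NA V W Xf)
      (NA V W X) (NNmap V W Z Xf (ki e) hZ) (NNmap V W Xf X e he) hinj hsur
      hex ?_ ?_ hK3 hK1 hMf hNp).2 ?_ ?_
    · intro a x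
      exact NNmap_r _ hZ a x
    · intro a x
      exact NNmap_r e he a x
    · exact hΩ w W hW2 hK1
    · exact hFc (NN V W Xf) (NA V W Xf) LinearMap.id LinearMap.id (fun x => rfl)
        (fun a x => rfl) (fun a x => rfl)

end Pool.Agent.Helper39.HD
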